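import Pool.Agent.H27.GC.Targets

set_option autoImplicit false

open Polynomial Finset Pool.Agent.H27.GC

namespace Pool.Agent.H45.GC.MJG

theorem maj_mono {K ρ ρ' : ℝ} {g : PowerSeries ℂ} (hK : 0 ≤ K) (hρ : 0 ≤ ρ) (h : ρ ≤ ρ')
    (hg : Maj K ρ g) : Maj K ρ' g := fun i =>
  (hg i).trans (mul_le_mul_of_nonneg_left (pow_le_pow_left₀ hρ h i) hK)

theorem maj_one {ρ : ℝ} (hρ : 0 ≤ ρ) : Maj 1 ρ (1 : PowerSeries ℂ) := by
  intro i
  rw [PowerSeries.coeff_one, one_mul]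
  split_ifs with h
  · rw [h]; simp
  · rw [norm_zero]
    positivity

theorem maj_lg {c : ℂ} {B : ℝ} (hc : ‖c‖ ≤ B) : Maj 1 B (lg c) := by
  have hc0 : (0 : ℝ) ≤ ‖c‖ := norm_nonneg c
  have hB : 0 ≤ B := hc0.trans hc
  intro i
  unfold lg
  rw [PowerSeries.coeff_mk, one_mul]
  rw [norm_div, norm_mul, norm_pow, norm_neg, norm_one, one_pow, one_mul, norm_pow,
    Complex.norm_natCast]
  rcases Nat.eq_zero_or_pos i with h | h
  · subst h; simp
  · have h1 : (1 : ℝ) ≤ (i : ℝ) := by exact_mod_cast h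
    rw [div_le_iff₀ (by linarith)]
    have h2 : ‖c‖ ^ i ≤ B ^ i := pow_le_pow_left₀ hc0 hc i
    have h3 : 0 ≤ B ^ i := pow_nonneg hB i
    nlinarith

theorem maj_pow (h1 : T_MJM) {ρ : ℝ} (hρ : 0 ≤ ρ) {g : PowerSeries ℂ} (hg : Maj 1 ρ g) (r : ℕ) :
    Maj 1 (2 ^ r * ρ) (g ^ r) := by
  induction r with
  | zero => rw [pow_zero, pow_zero, one_mul]; exact maj_one hρ
  | succ r ih =>
    have h2 : (1 : ℝ) ≤ 2 ^ r := one_le_pow₀ (by norm_num)
    have h3 : Maj 1 (2 ^ r * ρ) g := maj_mono zero_le_one hρ (by nlinarith) hg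
    have h4 := h1 1 1 (2 ^ r * ρ) (g ^ r) g (by positivity) zero_le_one ih h3
    rw [mul_one] at h4
    have e1 : (2 : ℝ) ^ (r + 1) * ρ = 2 * (2 ^ r * ρ) := by ring
    rw [e1, pow_succ g r]
    exact h4

theorem maj_prod (h1 : T_MJM) {ι : Type*} [DecidableEq ι] {ρ : ℝ} (hρ : 0 ≤ ρ) (t : Finset ι)
    (g : ι → PowerSeries ℂ) (n : ι → ℕ) (hg : ∀ k, Maj 1 ρ (g k)) :
    Maj 1 (2 ^ (∑ k ∈ t, n k + t.card) * ρ) (∏ k ∈ t, g k ^ n k) := by
  induction t using Finset.induction_on with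
  | empty => simpa using maj_one hρ
  | insert a t ha ih =>
    rw [Finset.prod_insert ha, Finset.sum_insert ha, Finset.card_insert_of_notMem ha]
    have h2 := maj_pow h1 hρ (hg a) (n a)
    have e1 : (2 : ℝ) ^ n a ≤ 2 ^ (n a + (∑ k ∈ t, n k + t.card)) :=
      pow_le_pow_right₀ (by norm_num) (by omega)
    have e2 : (2 : ℝ) ^ (∑ k ∈ t, n k + t.card) ≤ 2 ^ (n a + (∑ k ∈ t, n k + t.card)) :=
      pow_le_pow_right₀ (by norm_num) (by omega)
    have h3 : Maj 1 (2 ^ (n a + (∑ k ∈ t, n k + t.card)) * ρ) (g a ^ n a) :=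
      maj_mono zero_le_one (by positivity) (mul_le_mul_of_nonneg_right e1 hρ) h2
    have h4 : Maj 1 (2 ^ (n a + (∑ k ∈ t, n k + t.card)) * ρ) (∏ k ∈ t, g k ^ n k) :=
      maj_mono zero_le_one (by positivity) (mul_le_mul_of_nonneg_right e2 hρ) ih
    have h5 := h1 1 1 _ _ _ (by positivity) zero_le_one h3 h4
    rw [mul_one] at h5
    have e3 : (2 : ℝ) ^ (n a + ∑ k ∈ t, n k + (t.card + 1)) * ρ =
        2 * (2 ^ (n a + (∑ k ∈ t, n k + t.card)) * ρ) := by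
      rw [show n a + ∑ k ∈ t, n k + (t.card + 1) = (n a + (∑ k ∈ t, n k + t.card)) + 1 by ring,
        pow_succ]
      ring
    rw [e3]
    exact h5

theorem maj_taylor {m N : ℕ} {a B : ℝ} (hN : 1 ≤ N) (hB : 1 ≤ B) (p : ℂ[X])
    (hm : p.natDegree ≤ m) (ha : 0 ≤ a) (hp : ∀ j, ‖p.coeff j‖ ≤ a) :
    Maj ((m + 1) * 2 ^ m * a) B ((taylor (1 / N : ℂ) p : ℂ[X]) : PowerSeries ℂ) := by
  intro i
  have h1 : PowerSeries.coeff i ((taylor (1 / N : ℂ) p : ℂ[X]) : PowerSeries ℂ) =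
      ∑ n ∈ Finset.range (p.natDegree + 1), (n.choose i : ℂ) * p.coeff n * (1 / N) ^ (n - i) := by
    rw [Polynomial.coeff_coe, taylor_coeff, hasseDeriv_apply, Polynomial.sum_over_range,
      Polynomial.eval_finsetSum]
    · refine Finset.sum_congr rfl fun n _ => ?_
      rw [eval_monomial]
    · intro n; simp
  rw [h1]
  refine (norm_sum_le _ _).trans ?_
  have h2 : ∀ n ∈ Finset.range (p.natDegree + 1),
      ‖(n.choose i : ℂ) * p.coeff n * (1 / (N : ℂ)) ^ (n - i)‖ ≤ 2 ^ m * a := by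
    intro n hn
    rw [Finset.mem_range] at hn
    have hN' : (1 : ℝ) ≤ (N : ℝ) := by exact_mod_cast hN
    have e1 : (1 / (N : ℝ)) ^ (n - i) ≤ 1 := by
      apply pow_le_one₀ (by positivity)
      rw [div_le_one (by linarith)]
      exact hN'
    have e2 : (n.choose i : ℝ) ≤ 2 ^ m := by
      have : n.choose i ≤ 2 ^ m :=
        (Nat.choose_le_two_pow n i).trans (Nat.pow_le_pow_right (by norm_num) (by omega))
      exact_mod_cast this
    rw [norm_mul, norm_mul, Complex.norm_natCast, norm_pow, norm_div, norm_one,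
      Complex.norm_natCast]
    have e3 : (n.choose i : ℝ) * ‖p.coeff n‖ ≤ 2 ^ m * a :=
      mul_le_mul e2 (hp n) (norm_nonneg _) (by positivity)
    calc (n.choose i : ℝ) * ‖p.coeff n‖ * (1 / (N : ℝ)) ^ (n - i)
        ≤ (2 ^ m * a) * 1 := mul_le_mul e3 e1 (by positivity) (by positivity)
      _ = 2 ^ m * a := mul_one _
  refine (Finset.sum_le_sum h2).trans ?_
  rw [Finset.sum_const, Finset.card_range, nsmul_eq_mul]
  have h3 : (1 : ℝ) ≤ B ^ i := one_le_pow₀ hB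
  have h4 : ((p.natDegree + 1 : ℕ) : ℝ) ≤ (m : ℝ) + 1 := by
    push_cast
    have : (p.natDegree : ℝ) ≤ (m : ℝ) := by exact_mod_cast hm
    linarith
  have h5 : (0 : ℝ) ≤ 2 ^ m * a := by positivity
  calc ((p.natDegree + 1 : ℕ) : ℝ) * (2 ^ m * a) ≤ ((m : ℝ) + 1) * (2 ^ m * a) :=
        mul_le_mul_of_nonneg_right h4 h5
    _ = ((m : ℝ) + 1) * 2 ^ m * a * 1 := by ring
    _ ≤ ((m : ℝ) + 1) * 2 ^ m * a * B ^ i := mul_le_mul_of_nonneg_left h3 (by positivity)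

theorem norm_lam {N B : ℕ} {c : ℂ} (hN : 1 ≤ N) (hBN : 2 * B ≤ N) (hc : ‖c‖ ≤ B) :
    ‖c / (1 + c * (1 / N))‖ ≤ 2 * B := by
  have hN0 : (0 : ℝ) < N := by exact_mod_cast hN
  have h2 : (2 : ℝ) * B ≤ N := by exact_mod_cast hBN
  have h3 : ‖c * (1 / (N : ℂ))‖ ≤ 1 / 2 := by
    rw [norm_mul, norm_div, norm_one, Complex.norm_natCast, mul_one_div, div_le_iff₀ hN0]
    linarith
  have h4 : (1 : ℝ) / 2 ≤ ‖1 + c * (1 / (N : ℂ))‖ := by
    have h5 := norm_sub_norm_le (1 : ℂ) (-(c * (1 / (N : ℂ))))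
    rw [norm_one, norm_neg, sub_neg_eq_add] at h5
    linarith
  rw [norm_div, div_le_iff₀ (by linarith)]
  have hB0 : (0 : ℝ) ≤ B := Nat.cast_nonneg B
  nlinarith

end Pool.Agent.H45.GC.MJG

namespace Pool.Agent.H45.GC

open MJG

theorem pf_MJG (h1 : T_MJM) : T_MJG := by
  classical
  intro s D
  refine ⟨4 * (MM s D + 1) * 2 ^ (D + s + 2), ?_, ?_⟩
  · exact Nat.one_le_iff_ne_zero.2 (by positivity)
  intro m N B b A a hN hB hBN hb hA ha hAa i e'
  have hB' : (1 : ℝ) ≤ (B : ℝ) := by exact_mod_cast hB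
  have hB0 : (0 : ℝ) ≤ (B : ℝ) := by linarith
  have hB1 : (1 : ℝ) ≤ 2 * (B : ℝ) := by linarith
  have hB2 : (0 : ℝ) ≤ 2 * (B : ℝ) := by linarith
  have hlam : ∀ k, Maj 1 (2 * (B : ℝ)) (lam (b k) (1 / N)) := by
    intro k
    unfold lam
    exact maj_lg (norm_lam hN hBN (hb k))
  set Q : ℝ := 2 ^ (D + s + 2) * B with hQ
  have hterm : ∀ e ∈ II s D, ‖PowerSeries.coeff i (((taylor (1 / N : ℂ) (A e) : ℂ[X]) :
      PowerSeries ℂ) * (∏ k, ((e k).choose (e' k) : PowerSeries ℂ)) *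
      ∏ k, lam (b k) (1 / N) ^ (e k - e' k))‖ ≤
      2 ^ D * (((m : ℝ) + 1) * 2 ^ m * a) * Q ^ i := by
    intro e he
    have heD : ∑ k, e k ≤ D := by
      unfold II at he
      exact (Finset.mem_filter.1 he).2
    have hT := maj_taylor hN hB1 (A e) (hA e) ha (hAa e)
    have hP := maj_prod h1 hB2 Finset.univ (fun k => lam (b k) (1 / N))
      (fun k => e k - e' k) hlam
    have hle : ∑ k, (e k - e' k) + (Finset.univ : Finset (Fin s)).card ≤ D + s := by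
      rw [Finset.card_univ, Fintype.card_fin]
      have : ∑ k, (e k - e' k) ≤ ∑ k, e k := Finset.sum_le_sum fun k _ => Nat.sub_le _ _
      omega
    have hP' : Maj 1 (2 ^ (D + s) * (2 * (B : ℝ))) (∏ k, lam (b k) (1 / N) ^ (e k - e' k)) :=
      maj_mono zero_le_one (by positivity)
        (mul_le_mul_of_nonneg_right (pow_le_pow_right₀ (by norm_num) hle) hB2) hP
    have hT' : Maj (((m : ℝ) + 1) * 2 ^ m * a) (2 ^ (D + s) * (2 * (B : ℝ)))
        ((taylor (1 / N : ℂ) (A e) : ℂ[X]) : PowerSeries ℂ) := by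
      apply maj_mono (by positivity) hB2 _ hT
      have : (1 : ℝ) ≤ 2 ^ (D + s) := one_le_pow₀ (by norm_num)
      nlinarith
    have hM := h1 _ _ _ _ _ (by positivity) (by positivity) hT' hP'
    rw [mul_one] at hM
    have hMi := hM i
    have hch : (∏ k, ((e k).choose (e' k) : PowerSeries ℂ)) =
        PowerSeries.C ((∏ k, (e k).choose (e' k) : ℕ) : ℂ) := by
      rw [map_natCast, Nat.cast_prod]
    have hre : ((taylor (1 / N : ℂ) (A e) : ℂ[X]) : PowerSeries ℂ) *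
        (∏ k, ((e k).choose (e' k) : PowerSeries ℂ)) *
        ∏ k, lam (b k) (1 / N) ^ (e k - e' k) =
        PowerSeries.C ((∏ k, (e k).choose (e' k) : ℕ) : ℂ) *
        (((taylor (1 / N : ℂ) (A e) : ℂ[X]) : PowerSeries ℂ) *
        ∏ k, lam (b k) (1 / N) ^ (e k - e' k)) := by
      rw [hch]; ring
    rw [hre, PowerSeries.coeff_C_mul, norm_mul, Complex.norm_natCast]
    have hb2 : ((∏ k, (e k).choose (e' k) : ℕ) : ℝ) ≤ 2 ^ D := by
      have h2 : ∏ k, (e k).choose (e' k) ≤ 2 ^ D := by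
        calc ∏ k, (e k).choose (e' k) ≤ ∏ k, 2 ^ (e k) :=
              Finset.prod_le_prod' fun k _ => Nat.choose_le_two_pow _ _
          _ = 2 ^ (∑ k, e k) := Finset.prod_pow_eq_pow_sum _ _ _
          _ ≤ 2 ^ D := Nat.pow_le_pow_right (by norm_num) heD
      exact_mod_cast h2
    have hQe : 2 * (2 ^ (D + s) * (2 * (B : ℝ))) = Q := by rw [hQ, pow_add _ _ 2]; ring
    rw [hQe] at hMi
    calc ((∏ k, (e k).choose (e' k) : ℕ) : ℝ) * _ ≤
          2 ^ D * ((((m : ℝ) + 1) * 2 ^ m * a) * Q ^ i) :=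
          mul_le_mul hb2 hMi (norm_nonneg _) (by positivity)
      _ = 2 ^ D * (((m : ℝ) + 1) * 2 ^ m * a) * Q ^ i := by ring
  have hsum : ‖Gc b (1 / N) D A i e'‖ ≤
      (MM s D : ℝ) * (2 ^ D * (((m : ℝ) + 1) * 2 ^ m * a) * Q ^ i) := by
    unfold Gc GG
    rw [map_sum]
    refine (norm_sum_le _ _).trans ((Finset.sum_le_sum hterm).trans ?_)
    rw [Finset.sum_const, nsmul_eq_mul]
    rfl
  refine hsum.trans ?_
  push_cast
  set c : ℝ := 4 * ((MM s D : ℝ) + 1) * 2 ^ (D + s + 2) with hc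
  have hMM : (0 : ℝ) ≤ (MM s D : ℝ) := Nat.cast_nonneg _
  have h2D : (1 : ℝ) ≤ 2 ^ (D + s + 2) := one_le_pow₀ (by norm_num)
  have h2D' : (2 : ℝ) ^ D ≤ 2 ^ (D + s + 2) := pow_le_pow_right₀ (by norm_num) (by omega)
  have hc4 : 4 ≤ c := by rw [hc]; nlinarith
  have hcM : (MM s D : ℝ) * 2 ^ D ≤ c := by
    rw [hc]
    have : (MM s D : ℝ) * 2 ^ D ≤ (MM s D : ℝ) * 2 ^ (D + s + 2) :=
      mul_le_mul_of_nonneg_left h2D' hMM
    nlinarith
  have hcQ : Q ≤ c * B := by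
    rw [hQ, hc]
    apply mul_le_mul_of_nonneg_right _ hB0
    nlinarith
  have hm2 : ((m : ℝ) + 1) * 2 ^ m ≤ c ^ m := by
    have h3 : (m : ℝ) + 1 ≤ 2 ^ m := by
      have : m + 1 ≤ 2 ^ m := Nat.lt_two_pow_self
      exact_mod_cast this
    calc ((m : ℝ) + 1) * 2 ^ m ≤ 2 ^ m * 2 ^ m := mul_le_mul_of_nonneg_right h3 (by positivity)
      _ = 4 ^ m := by rw [← mul_pow]; norm_num
      _ ≤ c ^ m := pow_le_pow_left₀ (by norm_num) hc4 m
  have hQ0 : 0 ≤ Q := by positivity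
  have hQi : Q ^ i ≤ (c * B) ^ i := pow_le_pow_left₀ hQ0 hcQ i
  have hc0 : 0 ≤ c := by linarith
  calc (MM s D : ℝ) * (2 ^ D * (((m : ℝ) + 1) * 2 ^ m * a) * Q ^ i)
      = (((MM s D : ℝ) * 2 ^ D) * (((m : ℝ) + 1) * 2 ^ m)) * (a * Q ^ i) := by ring
    _ ≤ (c * c ^ m) * (a * (c * B) ^ i) := by
        apply mul_le_mul
        · exact mul_le_mul hcM hm2 (by positivity) hc0
        · exact mul_le_mul_of_nonneg_left hQi ha
        · positivity
        · positivity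
    _ = c ^ (m + 1) * a * (c * B) ^ i := by rw [pow_succ]; ring

end Pool.Agent.H45.GC
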